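import Pool.Agent.T6.H73.SY.Main

/-!
# MP_21f9f3_al: synchronized Sylow intersections in solvable groups

Let `G` be a finite solvable group and `P i` Sylow `p i`-subgroups of `G` for distinct primes `p i`.
Suppose that `|G|` is odd, or that no `p i` is `2` or a Mersenne prime. Then there is `x` in `G`
with `P i ∩ (P i)^x = O_{p i}(G)` for all `i`.
-/

set_option autoImplicit false

namespace Pool.Agent.Results.MP_21f9f3_al.SolvableOddPrimes

open scoped Pointwise
open Pool.Agent.T6.H73.SY

universe u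

theorem parity_aux {p q n m : ℕ} (hp : p.Prime) (hp2 : p ≠ 2) (hq : q.Prime) (hq2 : q ≠ 2)
    (_hn : 1 ≤ n) : p ^ n + 1 ≠ q ^ m := by
  intro h
  have h1 : Odd (p ^ n) := (hp.odd_of_ne_two hp2).pow
  have h2 : Odd (q ^ m) := (hq.odd_of_ne_two hq2).pow
  rw [← h] at h2
  exact absurd (h1.add_odd odd_one) (Nat.not_even_iff_odd.2 h2)

/-- For a finite solvable group `G` and Sylow subgroups `P i` for distinct primes `p i`, there is a
common `x` with `P i ∩ (P i)^x = O_{p i}(G)`, if `|G|` is odd or if no `p i` is `2` or a Mersenne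
prime. Here `(P i)^x = x⁻¹ (P i) x`, and `O_p(G)` is the intersection of the Sylow
`p`-subgroups. -/
theorem result (G : Type u) [Group G] [Finite G] [Group.IsSolvable G] (n : ℕ) (p : Fin n → ℕ)
    (hp : ∀ i, (p i).Prime) (hinj : Function.Injective p)
    (h : Odd (Nat.card G) ∨ ∀ i, p i ≠ 2 ∧ ∀ m : ℕ, p i + 1 ≠ 2 ^ m)
    (P : ∀ i, Sylow (p i) G) :
    ∃ x : G, ∀ i, (P i : Subgroup G) ⊓ (MulAut.conj x⁻¹ • (P i : Subgroup G)) =
      ⨅ Q : Sylow (p i) G, (Q : Subgroup G) := by
  obtain ⟨x, hx⟩ := sync_aux (Nat.card G) G le_rfl {i : Fin n // p i ≠ 2} (fun i => p i.1)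
    (fun i => hp i.1) (fun i j hij => Subtype.ext (hinj hij)) (fun i => i.2) (by
      intro q hq hqG i n' m hn'
      by_cases hq2 : q = 2
      · subst hq2
        rcases h with h | h
        · exact absurd (even_iff_two_dvd.2 hqG) (Nat.not_even_iff_odd.2 h)
        · intro heq
          obtain ⟨m', hm'⟩ := mersenne_aux (hp i.1) i.2 hn' heq
          exact (h i.1).2 m' hm'
      · exact parity_aux (hp i.1) i.2 hq hq2 hn') (fun i => P i.1)
  refine ⟨x, fun i => le_antisymm ?_ ?_⟩
  · rintro g ⟨hg, hgx⟩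
    have hgx' : x * g * x⁻¹ ∈ P i := by
      have h1 : g ∈ MulAut.conj x⁻¹ • (P i : Subgroup G) := hgx
      rw [Subgroup.mem_pointwise_smul_iff_inv_smul_mem, ← map_inv, inv_inv, MulAut.smul_def,
        MulAut.conj_apply] at h1
      exact h1
    by_cases hi : p i = 2
    · rcases h with h | h
      · have h1 : g = 1 := by
          obtain ⟨k, hk⟩ := (P i).2 ⟨g, hg⟩
          have h2 : g ^ p i ^ k = 1 := congrArg Subtype.val hk
          have h3 := orderOf_dvd_of_pow_eq_one h2
          have h4 := orderOf_dvd_natCard g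
          have h5 : Nat.Coprime (p i ^ k) (Nat.card G) := by
            rw [hi]
            exact Nat.Coprime.pow_left _ ((Nat.coprime_two_left).2 h)
          exact orderOf_eq_one_iff.1 (Nat.eq_one_of_dvd_coprimes h5 h3 h4)
        rw [h1]
        exact Subgroup.one_mem _
      · exact absurd hi (h i).1
    · exact hx ⟨i, hi⟩ g hg hgx'
  · intro g hg
    have hn : (Op (p i) G).Normal := Op_normal
    have hg' : g ∈ Op (p i) G := hg
    refine ⟨mem_Op.1 hg' (P i), ?_⟩
    show g ∈ MulAut.conj x⁻¹ • (P i : Subgroup G)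
    rw [Subgroup.mem_pointwise_smul_iff_inv_smul_mem, ← map_inv, inv_inv, MulAut.smul_def,
      MulAut.conj_apply]
    exact mem_Op.1 (hn.conj_mem g hg' x) (P i)

end Pool.Agent.Results.MP_21f9f3_al.SolvableOddPrimes
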